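import Pool.Agent.Helper85.IA.St

set_option autoImplicit false

namespace Pool.Agent.Helper7.IA85

open Finset Pool.Agent.Helper93.IA Pool.Agent.Helper85.IA

section

variable {α β γ : Type} [Fintype α] [Fintype β] [Fintype γ] [DecidableEq α] [DecidableEq β]
  [DecidableEq γ]

private lemma us_le (σ : α × β → Option γ) (a : α) (b : β) (c : γ) :
    us σ a b c ≤ if σ (a, b) = some c then 1 else 0 := by
  unfold us
  by_cases h : Us σ a b c
  · rw [if_pos h, if_pos h.1]
  · rw [if_neg h]
    split_ifs <;> norm_num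

private lemma us_ge (σ : α × β → Option γ) (a : α) (b : β) (c : γ) :
    (if σ (a, b) = some c then (1 : ℝ) else 0)
      - (∑ b' ∈ univ.erase b, if σ (a, b) = some c ∧ σ (a, b') = some c then (1 : ℝ) else 0)
      - (∑ a' ∈ univ.erase a, if σ (a, b) = some c ∧ σ (a', b) = some c then (1 : ℝ) else 0)
      ≤ us σ a b c := by
  have n1 : 0 ≤ ∑ b' ∈ univ.erase b,
      if σ (a, b) = some c ∧ σ (a, b') = some c then (1 : ℝ) else 0 :=
    Finset.sum_nonneg fun b' _ => by split_ifs <;> norm_num
  have n2 : 0 ≤ ∑ a' ∈ univ.erase a,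
      if σ (a, b) = some c ∧ σ (a', b) = some c then (1 : ℝ) else 0 :=
    Finset.sum_nonneg fun a' _ => by split_ifs <;> norm_num
  have n3 : 0 ≤ us σ a b c := by
    unfold us
    split_ifs <;> norm_num
  by_cases h : σ (a, b) = some c
  · by_cases h1 : ∀ b', b' ≠ b → σ (a, b') ≠ some c
    · by_cases h2 : ∀ a', a' ≠ a → σ (a', b) ≠ some c
      · have : us σ a b c = 1 := by
          unfold us
          exact if_pos ⟨h, h1, h2⟩
        rw [this, if_pos h]
        linarith
      · push Not at h2
        obtain ⟨a', ha', h3⟩ := h2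
        have h4 : (1 : ℝ) ≤ ∑ a' ∈ univ.erase a,
            if σ (a, b) = some c ∧ σ (a', b) = some c then (1 : ℝ) else 0 := by
          have h5 := Finset.single_le_sum
            (f := fun a' => if σ (a, b) = some c ∧ σ (a', b) = some c then (1 : ℝ) else 0)
            (s := univ.erase a) (fun a'' _ => by split_ifs <;> norm_num)
            (Finset.mem_erase.2 ⟨ha', Finset.mem_univ a'⟩)
          have h6 : (if σ (a, b) = some c ∧ σ (a', b) = some c then (1 : ℝ) else 0) = 1 :=
            if_pos ⟨h, h3⟩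
          simp only [h6] at h5
          exact h5
        rw [if_pos h]
        linarith
    · push Not at h1
      obtain ⟨b', hb', h3⟩ := h1
      have h4 : (1 : ℝ) ≤ ∑ b' ∈ univ.erase b,
          if σ (a, b) = some c ∧ σ (a, b') = some c then (1 : ℝ) else 0 := by
        have h5 := Finset.single_le_sum
          (f := fun b' => if σ (a, b) = some c ∧ σ (a, b') = some c then (1 : ℝ) else 0)
          (s := univ.erase b) (fun b'' _ => by split_ifs <;> norm_num)
          (Finset.mem_erase.2 ⟨hb', Finset.mem_univ b'⟩)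
        have h6 : (if σ (a, b) = some c ∧ σ (a, b') = some c then (1 : ℝ) else 0) = 1 :=
          if_pos ⟨h, h3⟩
        simp only [h6] at h5
        exact h5
      rw [if_pos h]
      linarith
  · rw [if_neg h]
    linarith

private lemma mean_us (hE : StEXJ) (ε μ : ℝ) (y : α → β → γ → ℝ) (hy : Yd ε μ y) (a : α) (b : β)
    (c : γ) : E y (fun σ => us σ a b c) ≤ y a b c ∧
      (1 - 2 * ε) * y a b c ≤ E y (fun σ => us σ a b c) := by
  obtain ⟨e1, e2⟩ := hE (α × β) (fun _ => Option γ) (wt y) (wt_sum y)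
  have hw := wt_nonneg hy
  constructor
  · have h1 : E y (fun σ => us σ a b c) ≤ E y (fun σ => if σ (a, b) = some c then 1 else 0) :=
      Ex_mono hw fun σ => us_le σ a b c
    have h2 : E y (fun σ => if σ (a, b) = some c then 1 else 0) = y a b c := e1 (a, b) (some c)
    rw [h2] at h1
    exact h1
  · have h1 : E y (fun σ => (if σ (a, b) = some c then (1 : ℝ) else 0)
      - (∑ b' ∈ univ.erase b, if σ (a, b) = some c ∧ σ (a, b') = some c then (1 : ℝ) else 0)
      - (∑ a' ∈ univ.erase a, if σ (a, b) = some c ∧ σ (a', b) = some c then (1 : ℝ) else 0)) ≤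
        E y (fun σ => us σ a b c) :=
      Ex_mono hw fun σ => us_ge σ a b c
    refine le_trans ?_ h1
    unfold E
    rw [Ex_sub, Ex_sub, Ex_sum, Ex_sum]
    have h2 : Ex (wt y) (fun σ : (α × β → Option γ) => if σ (a, b) = some c then (1 : ℝ) else 0) =
      y a b c := e1 (a, b) (some c)
    have h3 : ∀ b' ∈ univ.erase b, Ex (wt y) (fun σ : (α × β → Option γ) =>
        if σ (a, b) = some c ∧ σ (a, b') = some c then (1 : ℝ) else 0) = y a b c * y a b' c := by
      intro b' hb'
      have hne : (a, b) ≠ (a, b') := fun h => (Finset.ne_of_mem_erase hb') (Prod.mk.inj h).2.symm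
      exact e2 (a, b) (a, b') (some c) (some c) hne
    have h4 : ∀ a' ∈ univ.erase a, Ex (wt y) (fun σ : (α × β → Option γ) =>
        if σ (a, b) = some c ∧ σ (a', b) = some c then (1 : ℝ) else 0) = y a b c * y a' b c := by
      intro a' ha'
      have hne : (a, b) ≠ (a', b) := fun h => (Finset.ne_of_mem_erase ha') (Prod.mk.inj h).1.symm
      exact e2 (a, b) (a', b) (some c) (some c) hne
    rw [h2, Finset.sum_congr rfl h3, Finset.sum_congr rfl h4, ← Finset.mul_sum, ← Finset.mul_sum]
    have h0 := hy.nn a b c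
    have h5 : ∑ b' ∈ univ.erase b, y a b' c ≤ ε :=
      (Finset.sum_le_univ_sum_of_nonneg fun b' => hy.nn a b' c).trans (hy.sC c a)
    have h6 : ∑ a' ∈ univ.erase a, y a' b c ≤ ε :=
      (Finset.sum_le_univ_sum_of_nonneg fun a' => hy.nn a' b c).trans (hy.sB b c)
    have h7 := mul_le_mul_of_nonneg_left h5 h0
    have h8 := mul_le_mul_of_nonneg_left h6 h0
    linarith

end

theorem hKMN : StEXJ → StKMN := by
  intro hE α β γ _ _ _ _ _ _ ε μ y hy
  refine ⟨fun a b => ?_, fun b c => ?_, fun c a => ?_⟩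
  · have h : E y (fun σ => kA σ a b) = ∑ c, E y (fun σ => us σ a b c) :=
      Ex_sum univ (fun c σ => us σ a b c)
    rw [h, Finset.mul_sum]
    exact ⟨Finset.sum_le_sum fun c _ => (mean_us hE ε μ y hy a b c).1,
      Finset.sum_le_sum fun c _ => (mean_us hE ε μ y hy a b c).2⟩
  · have h : E y (fun σ => kB σ b c) = ∑ a, E y (fun σ => us σ a b c) :=
      Ex_sum univ (fun a σ => us σ a b c)
    rw [h, Finset.mul_sum]
    exact ⟨Finset.sum_le_sum fun a _ => (mean_us hE ε μ y hy a b c).1,
      Finset.sum_le_sum fun a _ => (mean_us hE ε μ y hy a b c).2⟩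
  · have h : E y (fun σ => kC σ c a) = ∑ b, E y (fun σ => us σ a b c) :=
      Ex_sum univ (fun b σ => us σ a b c)
    rw [h, Finset.mul_sum]
    exact ⟨Finset.sum_le_sum fun b _ => (mean_us hE ε μ y hy a b c).1,
      Finset.sum_le_sum fun b _ => (mean_us hE ε μ y hy a b c).2⟩

end Pool.Agent.Helper7.IA85
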